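import Mathlib.Tactic.Abel
import Mathlib.Tactic.Ring.RingNF
import Mathlib.Algebra.BigOperators.Fin
import Mathlib.Tactic.SuppressCompilation
import Mathlib.Tactic.LinearCombination
import Mathlib.Algebra.Field.ZMod
import Mathlib.Algebra.Order.Ring.Star
import Mathlib.Data.Finset.Slice
import Pool.Agent.MP_264e74_co.Tables

-- ======== part 0: formerly Pool.Agent.MP_264e74_co.Barrier
section MrgPart0

set_option autoImplicit false
set_option linter.unusedSectionVars false

namespace Pool.Agent.MP_264e74_co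

open Function Finset

/-- A set of tuples meeting every axis-parallel line exactly once. -/
def Latin {D X : Type} [DecidableEq D] (S : (D → X) → Prop) : Prop :=
  ∀ (c : D) (x : D → X), ∃! a, S (update x c a)

/-- `g` does not depend on coordinate `c`. -/
def Indep {D X : Type} [DecidableEq D] (g : (D → X) → ZMod 2) (c : D) : Prop :=
  ∀ x a, g (update x c a) = g x

theorem sum_latin {D X : Type} [Fintype D] [DecidableEq D] [Fintype X] [DecidableEq X]
    (S : (D → X) → Prop) [DecidablePred S] (hS : Latin S) (g : (D → X) → ZMod 2) (c : D)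
    (hg : Indep g c) :
    ∑ x, g x = (Fintype.card X : ZMod 2) * ∑ x with S x, g x := by
  classical
  choose ψ hψ using fun x => hS c x
  rw [← Finset.sum_fiberwise_of_maps_to (s := univ) (t := univ.filter S)
    (g := fun x => update x c (ψ x)) (fun x _ => by simpa using (hψ x).1), Finset.mul_sum]
  refine Finset.sum_congr rfl fun y hy => ?_
  have hy' : S y := by simpa using hy
  have hset : (univ.filter fun x => update x c (ψ x) = y) = univ.image (update y c) := by
    ext x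
    simp only [mem_filter, mem_univ, true_and, mem_image]
    constructor
    · intro h
      exact ⟨x c, by rw [← h]; simp⟩
    · rintro ⟨a, rfl⟩
      have h1 : S (update (update y c a) c (y c)) := by simpa using hy'
      have h2 := (hψ (update y c a)).2 (y c) h1
      rw [← h2]; simp
  rw [hset, Finset.sum_image (fun a _ b _ h => update_injective y c h)]
  simp only [hg y]
  simp

/-- A family of pairwise disjoint Latin sets covering the support of a sum of functions, each
independent of some coordinate, whose total sum is odd. -/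
structure Barrier (D X Λ : Type) [Fintype D] [DecidableEq D] [Fintype X] [DecidableEq X] where
  S : Λ → (D → X) → Prop
  latin : ∀ l, Latin (S l)
  disj : ∀ l l' x, S l x → S l' x → l = l'
  J : Type
  fin : Fintype J
  α : J → (D → X) → ZMod 2
  indep : ∀ j, ∃ c, Indep (α j) c
  cover : ∀ x, ∑ j, α j x ≠ 0 → ∃ l, S l x
  total : ∑ x, ∑ j, α j x = 1

theorem Barrier.meets {D X Λ : Type} [Fintype D] [DecidableEq D] [Fintype X] [DecidableEq X]
    (B : Barrier D X Λ) (T : (D → X) → Prop) (hT : Latin T) : ∃ x l, T x ∧ B.S l x := by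
  classical
  by_contra h
  push Not at h
  let _ := B.fin
  have h1 := B.total
  rw [Finset.sum_comm] at h1
  have h2 : ∀ j, ∑ x, B.α j x = (Fintype.card X : ZMod 2) * ∑ x with T x, B.α j x := by
    intro j
    obtain ⟨c, hc⟩ := B.indep j
    exact sum_latin T hT _ c hc
  simp only [h2] at h1
  rw [← Finset.mul_sum, Finset.sum_comm] at h1
  have h3 : ∑ x with T x, ∑ j, B.α j x = 0 := by
    refine Finset.sum_eq_zero fun x hx => ?_
    by_contra hne
    obtain ⟨l, hl⟩ := B.cover x hne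
    exact h x l (by simpa using hx) hl
  rw [h3, mul_zero] at h1
  exact zero_ne_one h1

section Merge

variable {D I X : Type} [Fintype D] [DecidableEq D] [Fintype I] [DecidableEq I]
  [AddCommGroup X] [Fintype X] [DecidableEq X]

/-- Add up the coordinates in each fibre of `q`. -/
def merge (q : D → I) : (D → X) →+ (I → X) where
  toFun u := fun i => ∑ c with q c = i, u c
  map_zero' := by funext i; simp
  map_add' u v := by funext i; simp [Finset.sum_add_distrib]

theorem merge_apply (q : D → I) (u : D → X) (i : I) :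
    merge q u i = ∑ c with q c = i, u c := rfl

theorem merge_update (q : D → I) (u : D → X) (c : D) (a : X) :
    merge q (update u c a) = update (merge q u) (q c) (merge q u (q c) - u c + a) := by
  funext i
  by_cases h : i = q c
  · subst h
    rw [update_self, merge_apply, merge_apply,
      Finset.sum_update_of_mem (by simp : c ∈ univ.filter fun c' => q c' = q c),
      ← Finset.add_sum_erase _ _ (by simp : c ∈ univ.filter fun c' => q c' = q c),
      Finset.sdiff_singleton_eq_erase]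
    abel
  · rw [update_of_ne h, merge_apply, merge_apply]
    refine Finset.sum_congr rfl fun c' hc' => ?_
    have : c' ≠ c := by
      rintro rfl
      exact h (by simpa using (Finset.mem_filter.mp hc').2.symm)
    rw [update_of_ne this]

theorem merge_surj (q : D → I) (hq : Surjective q) : Surjective (merge (X := X) q) := by
  intro y
  obtain ⟨s, hs⟩ := hq.hasRightInverse
  refine ⟨fun c => if c = s (q c) then y (q c) else 0, ?_⟩
  funext i
  rw [merge_apply, Finset.sum_eq_single (s i)]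
  · simp [hs i]
  · intro c hc hne
    have : q c = i := (Finset.mem_filter.mp hc).2
    rw [this, if_neg hne]
  · intro h
    exact absurd (by simp [hs i]) h

theorem sum_merge (q : D → I) (hq : Surjective q) (hodd : Odd (Fintype.card X))
    (g : (I → X) → ZMod 2) : ∑ u : D → X, g (merge q u) = ∑ y, g y := by
  classical
  have hfib : ∀ y y' : I → X, #(univ.filter fun u : D → X => merge q u = y) =
      #(univ.filter fun u : D → X => merge q u = y') := fun y y' =>
    AddMonoidHom.card_fiber_eq_of_mem_range (merge q) (merge_surj q hq y) (merge_surj q hq y')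
  have hN : Odd #(univ.filter fun u : D → X => merge q u = 0) := by
    have h1 : Fintype.card (D → X) =
        ∑ y : I → X, #(univ.filter fun u : D → X => merge q u = y) := by
      rw [← Finset.card_univ]
      exact Finset.card_eq_sum_card_fiberwise (fun _ _ => mem_univ _)
    simp only [hfib _ 0, Finset.sum_const, smul_eq_mul] at h1
    have h2 : Odd (Fintype.card (D → X)) := by
      rw [Fintype.card_fun]; exact hodd.pow
    rw [h1] at h2
    exact (Nat.odd_mul.mp h2).2
  rw [← Finset.sum_fiberwise (s := univ) (g := fun u : D → X => merge q u)]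
  refine Finset.sum_congr rfl fun y _ => ?_
  rw [Finset.sum_congr rfl (g := fun _ => g y) (fun u hu => by rw [(Finset.mem_filter.mp hu).2]),
    Finset.sum_const, hfib y 0, nsmul_eq_mul, (ZMod.natCast_eq_one_iff_odd).mpr hN, one_mul]

end Merge

/-- The grid product of `j` copies of a barrier whose summands are indexed by the coordinates. -/
noncomputable def Barrier.grid {I X Λ : Type} [Fintype I] [DecidableEq I] [AddCommGroup X]
    [Fintype X] [DecidableEq X] (hodd : Odd (Fintype.card X))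
    (S : Λ → (I → X) → Prop) (latin : ∀ l, Latin (S l))
    (disj : ∀ l l' x, S l x → S l' x → l = l') (α : I → (I → X) → ZMod 2)
    (indep : ∀ i, Indep (α i) i) (cover : ∀ x, ∑ i, α i x ≠ 0 → ∃ l, S l x)
    (total : ∑ x, ∑ i, α i x = 1) (j : ℕ) (D : Type) [Fintype D] [DecidableEq D]
    (p : D → Fin j → I) (hp : Surjective p) : Barrier D (Fin j → X) (Fin j → Λ) where
  S l x := ∀ m, S (l m) (merge (fun c => p c m) fun c => x c m)
  latin := by
    intro l c x
    have key : ∀ (a : Fin j → X) (m : Fin j),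
        (merge (fun c => p c m) fun c' => update x c a c' m) =
        update (merge (fun c => p c m) fun c' => x c' m) (p c m)
          ((merge (fun c => p c m) fun c' => x c' m) (p c m) - x c m + a m) := by
      intro a m
      rw [← merge_update]
      congr 1
      funext c'
      by_cases h : c' = c
      · subst h; simp
      · simp [update_of_ne h]
    simp only [key]
    choose b hb using fun m => latin (l m) (p c m) (merge (fun c => p c m) fun c' => x c' m)
    refine ⟨fun m => b m - ((merge (fun c => p c m) fun c' => x c' m) (p c m) - x c m),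
      fun m => by simpa using (hb m).1, fun a ha => ?_⟩
    funext m
    rw [← (hb m).2 _ (ha m)]
    abel
  disj l l' x h h' := funext fun m => disj _ _ _ (h m) (h' m)
  J := Fin j → I
  fin := inferInstance
  α σ x := ∏ m, α (σ m) (merge (fun c => p c m) fun c => x c m)
  indep σ := by
    obtain ⟨c, rfl⟩ := hp σ
    refine ⟨c, fun x a => Finset.prod_congr rfl fun m _ => ?_⟩
    have : (fun c' => update x c a c' m) = update (fun c' => x c' m) c (a m) := by
      funext c'
      by_cases h : c' = c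
      · subst h; simp
      · simp [update_of_ne h]
    rw [this, merge_update]
    exact indep _ _ _
  cover x hx := by
    rw [← Fintype.piFinset_univ, ← Finset.prod_univ_sum (fun _ => univ)
      (fun m i => α i (merge (fun c => p c m) fun c => x c m))] at hx
    choose l hl using fun m => cover _ (Finset.prod_ne_zero_iff.mp hx m (mem_univ m))
    exact ⟨l, hl⟩
  total := by
    have h1 : ∀ x : D → Fin j → X,
        ∑ σ : Fin j → I, ∏ m, α (σ m) (merge (fun c => p c m) fun c => x c m) =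
        ∏ m, ∑ i, α i (merge (fun c => p c m) fun c => x c m) := by
      intro x
      rw [Finset.prod_univ_sum, Fintype.piFinset_univ]
    simp only [h1]
    rw [← Equiv.sum_comp (Equiv.piComm fun (_ : Fin j) (_ : D) => X)]
    simp only [Equiv.piComm_apply, swap]
    rw [← Fintype.piFinset_univ, ← Finset.prod_univ_sum (fun _ => univ)
      (fun m (u : D → X) => ∑ i, α i (merge (fun c => p c m) u))]
    refine Finset.prod_eq_one fun m _ => ?_
    have hq : Surjective fun c => p c m := by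
      intro i
      obtain ⟨c, hc⟩ := hp fun _ => i
      exact ⟨c, by simp [hc]⟩
    rw [sum_merge _ hq hodd (fun y => ∑ i, α i y), total]

end Pool.Agent.MP_264e74_co

end MrgPart0

-- ======== part 1: formerly Pool.Agent.MP_264e74_co.Glue
section MrgPart1

set_option autoImplicit false
set_option linter.unusedSectionVars false

namespace Pool.Agent.MP_264e74_co

/-- Elements: `o` old copies of every master point, and `n` new elements. -/
abbrev Elt (A : Type) (o n : ℕ) : Type := (A × Fin o) ⊕ Fin n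

section Elt

variable {A : Type} {o n : ℕ}

/-- The local label of an element. -/
def loc : Elt A o n → ℕ
  | .inl p => p.2
  | .inr b => o + b

/-- The element lies over the master point `x`, or is new. -/
def compat : Elt A o n → A → Prop
  | .inl p, x => p.1 = x
  | .inr _, _ => True

theorem loc_lt (e : Elt A o n) : loc e < o + n := by
  rcases e with p | b
  · have := p.2.2; simp only [loc]; omega
  · have := b.2; simp only [loc]; omega

theorem exists_elt (x : A) (l : ℕ) (hl : l < o + n) :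
    ∃ e : Elt A o n, compat e x ∧ loc e = l := by
  by_cases h : l < o
  · exact ⟨.inl (x, ⟨l, h⟩), rfl, rfl⟩
  · exact ⟨.inr ⟨l - o, by omega⟩, trivial, by simp only [loc]; omega⟩

theorem elt_ext {e e' : Elt A o n} {x : A} (h : compat e x) (h' : compat e' x)
    (hl : loc e = loc e') : e = e' := by
  rcases e with ⟨y, a⟩ | b <;> rcases e' with ⟨y', a'⟩ | b'
  · simp only [compat, loc] at h h' hl
    rw [h, h', Fin.ext hl]
  · have := a.2; simp only [loc] at hl; omega
  · have := a'.2; simp only [loc] at hl; omega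
  · simp only [loc] at hl
    rw [Fin.ext (show (b : ℕ) = b' by omega)]

theorem nw_inl (p : A × Fin o) : nw o (loc (.inl p : Elt A o n)) = 0 := by
  simp [nw, loc]

theorem nw_inr (b : Fin n) : nw o (loc (.inr b : Elt A o n)) = 1 := by
  simp [nw, loc]

end Elt

/-- The block responsible for a triple of elements. -/
theorem resp {A Blk : Type} (kind : Blk → ℕ) (p1 p2 p3 : Blk → A)
    (h123 : ∀ a b c, ∃! B, p1 B = a ∧ p2 B = b ∧ p3 B = c)
    (h12 : ∀ a b, ∃! B, 1 ≤ kind B ∧ p1 B = a ∧ p2 B = b)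
    (h13 : ∀ a b, ∃! B, 1 ≤ kind B ∧ p1 B = a ∧ p3 B = b)
    (h23 : ∀ a b, ∃! B, 1 ≤ kind B ∧ p2 B = a ∧ p3 B = b)
    (h1 : ∀ a, ∃! B, 2 ≤ kind B ∧ p1 B = a) (h2 : ∀ a, ∃! B, 2 ≤ kind B ∧ p2 B = a)
    (h3 : ∀ a, ∃! B, 2 ≤ kind B ∧ p3 B = a) (h0 : ∃! B, 3 ≤ kind B)
    {o1 n1 o2 n2 o3 n3 : ℕ} (e1 : Elt A o1 n1) (e2 : Elt A o2 n2) (e3 : Elt A o3 n3) :
    ∃! B, compat e1 (p1 B) ∧ compat e2 (p2 B) ∧ compat e3 (p3 B) ∧
      nw o1 (loc e1) + nw o2 (loc e2) + nw o3 (loc e3) ≤ kind B := by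
  rcases e1 with q1 | b1 <;> rcases e2 with q2 | b2 <;> rcases e3 with q3 | b3 <;>
    simp only [nw_inl, nw_inr, compat, true_and]
  · refine (existsUnique_congr fun B => ?_).mp (h123 q1.1 q2.1 q3.1)
    constructor
    · rintro ⟨a, b, c⟩; exact ⟨a.symm, b.symm, c.symm, Nat.zero_le _⟩
    · rintro ⟨a, b, c, -⟩; exact ⟨a.symm, b.symm, c.symm⟩
  · refine (existsUnique_congr fun B => ?_).mp (h12 q1.1 q2.1)
    constructor
    · rintro ⟨a, b, c⟩; exact ⟨b.symm, c.symm, a⟩
    · rintro ⟨a, b, c⟩; exact ⟨c, a.symm, b.symm⟩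
  · refine (existsUnique_congr fun B => ?_).mp (h13 q1.1 q3.1)
    constructor
    · rintro ⟨a, b, c⟩; exact ⟨b.symm, c.symm, a⟩
    · rintro ⟨a, b, c⟩; exact ⟨c, a.symm, b.symm⟩
  · refine (existsUnique_congr fun B => ?_).mp (h1 q1.1)
    constructor
    · rintro ⟨a, b⟩; exact ⟨b.symm, a⟩
    · rintro ⟨a, b⟩; exact ⟨b, a.symm⟩
  · refine (existsUnique_congr fun B => ?_).mp (h23 q2.1 q3.1)
    constructor
    · rintro ⟨a, b, c⟩; exact ⟨b.symm, c.symm, a⟩
    · rintro ⟨a, b, c⟩; exact ⟨c, a.symm, b.symm⟩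
  · refine (existsUnique_congr fun B => ?_).mp (h2 q2.1)
    constructor
    · rintro ⟨a, b⟩; exact ⟨b.symm, a⟩
    · rintro ⟨a, b⟩; exact ⟨b, a.symm⟩
  · refine (existsUnique_congr fun B => ?_).mp (h3 q3.1)
    constructor
    · rintro ⟨a, b⟩; exact ⟨b.symm, a⟩
    · rintro ⟨a, b⟩; exact ⟨b, a.symm⟩
  · exact h0

section Master

variable {A : Type} [CommRing A] [DecidableEq A]

/-- The level of a master block: `3` for the last group, `2` for the other groups, `1` for the other
blocks of the fan, `0` otherwise. -/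
def kind (B : A × A × A) : ℕ :=
  if B.1 = 0 ∧ B.2.1 = 0 ∧ B.2.2 = 0 then 3
  else if B.2.1 = B.1 ∧ B.2.2 = B.1 then 2
  else if B.2.2 = 2 * B.2.1 - B.1 then 1 else 0

/-- The layer coordinate of a master block. -/
def pw (B : A × A × A) : A := 3 * B.1 - 3 * B.2.1 + B.2.2

theorem kind_lt (B : A × A × A) : kind B < 4 := by
  unfold kind; split_ifs <;> omega

theorem kind1 (x y z : A) : 1 ≤ kind (x, y, z) ↔ z = 2 * y - x := by
  unfold kind
  split_ifs with h1 h2 h3
  · obtain ⟨a, b, c⟩ := h1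
    simp only at a b c
    simp [a, b, c]
  · obtain ⟨a, b⟩ := h2
    simp only at a b
    simp only [a, b, Nat.one_le_ofNat, true_iff]; ring
  · simpa using h3
  · simpa using h3

theorem kind2 (x y z : A) : 2 ≤ kind (x, y, z) ↔ y = x ∧ z = x := by
  unfold kind
  split_ifs with h1 h2 h3
  · obtain ⟨a, b, c⟩ := h1
    simp only at a b c
    simp [a, b, c]
  · simpa using h2
  · simpa using h2
  · simpa using h2

theorem kind3 (x y z : A) : 3 ≤ kind (x, y, z) ↔ x = 0 ∧ y = 0 ∧ z = 0 := by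
  unfold kind
  split_ifs with h1 h2 h3
  · simpa using h1
  · simpa using h1
  · simpa using h1
  · simpa using h1

variable (i2 i3 : A) (h2 : 2 * i2 = 1) (h3 : 3 * i3 = 1)

theorem t123 (a b c : A) : ∃! B : A × A × A, B.1 = a ∧ B.2.1 = b ∧ B.2.2 = c :=
  ⟨(a, b, c), ⟨rfl, rfl, rfl⟩, by rintro ⟨x, y, z⟩ ⟨rfl, rfl, rfl⟩; rfl⟩

theorem t124 (a b c : A) : ∃! B : A × A × A, B.1 = a ∧ B.2.1 = b ∧ pw B = c :=
  ⟨(a, b, c - 3 * a + 3 * b), ⟨rfl, rfl, by simp only [pw]; ring⟩, by
    rintro ⟨x, y, z⟩ ⟨rfl, rfl, rfl⟩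
    simp only [pw, Prod.mk.injEq, true_and]; ring⟩

include h3 in
theorem t134 (a b c : A) : ∃! B : A × A × A, B.1 = a ∧ B.2.2 = b ∧ pw B = c :=
  ⟨(a, i3 * (3 * a + b - c), b), ⟨rfl, rfl, by
      simp only [pw]; linear_combination (-(3 * a + b - c)) * h3⟩, by
    rintro ⟨x, y, z⟩ ⟨rfl, rfl, rfl⟩
    simp only [pw, Prod.mk.injEq, true_and, and_true]; linear_combination (-y) * h3⟩

include h3 in
theorem t234 (a b c : A) : ∃! B : A × A × A, B.2.1 = a ∧ B.2.2 = b ∧ pw B = c :=
  ⟨(i3 * (3 * a - b + c), a, b), ⟨rfl, rfl, by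
      simp only [pw]; linear_combination (3 * a - b + c) * h3⟩, by
    rintro ⟨x, y, z⟩ ⟨rfl, rfl, rfl⟩
    simp only [pw, Prod.mk.injEq, and_true]; linear_combination (-x) * h3⟩

theorem s12 (a b : A) : ∃! B : A × A × A, 1 ≤ kind B ∧ B.1 = a ∧ B.2.1 = b :=
  ⟨(a, b, 2 * b - a), ⟨(kind1 _ _ _).mpr rfl, rfl, rfl⟩, by
    rintro ⟨x, y, z⟩ ⟨h, rfl, rfl⟩
    rw [kind1] at h
    rw [h]⟩

include h2 in
theorem s13 (a b : A) : ∃! B : A × A × A, 1 ≤ kind B ∧ B.1 = a ∧ B.2.2 = b :=
  ⟨(a, i2 * (a + b), b), ⟨(kind1 _ _ _).mpr (by linear_combination (-(a + b)) * h2), rfl, rfl⟩, by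
    rintro ⟨x, y, z⟩ ⟨h, rfl, rfl⟩
    rw [kind1] at h
    simp only [Prod.mk.injEq, true_and, and_true]
    linear_combination (-y) * h2 - i2 * h⟩

theorem s14 (a b : A) : ∃! B : A × A × A, 1 ≤ kind B ∧ B.1 = a ∧ pw B = b :=
  ⟨(a, 2 * a - b, 3 * a - 2 * b), ⟨(kind1 _ _ _).mpr (by ring), rfl, by simp only [pw]; ring⟩, by
    rintro ⟨x, y, z⟩ ⟨h, rfl, rfl⟩
    rw [kind1] at h
    subst h
    simp only [pw, Prod.mk.injEq, true_and]
    constructor <;> ring⟩

theorem s23 (a b : A) : ∃! B : A × A × A, 1 ≤ kind B ∧ B.2.1 = a ∧ B.2.2 = b :=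
  ⟨(2 * a - b, a, b), ⟨(kind1 _ _ _).mpr (by ring), rfl, rfl⟩, by
    rintro ⟨x, y, z⟩ ⟨h, rfl, rfl⟩
    rw [kind1] at h
    simp only [Prod.mk.injEq, and_true]
    linear_combination h⟩

include h2 in
theorem s24 (a b : A) : ∃! B : A × A × A, 1 ≤ kind B ∧ B.2.1 = a ∧ pw B = b :=
  ⟨(i2 * (a + b), a, 2 * a - i2 * (a + b)), ⟨(kind1 _ _ _).mpr rfl, rfl, by
      simp only [pw]; linear_combination (a + b) * h2⟩, by
    rintro ⟨x, y, z⟩ ⟨h, rfl, rfl⟩
    rw [kind1] at h
    subst h
    simp only [pw, Prod.mk.injEq, true_and]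
    constructor
    · linear_combination (-x) * h2
    · linear_combination x * h2⟩

include h3 in
theorem s34 (a b : A) : ∃! B : A × A × A, 1 ≤ kind B ∧ B.2.2 = a ∧ pw B = b :=
  ⟨(i3 * (2 * b + a), i3 * (b + 2 * a), a), ⟨(kind1 _ _ _).mpr (by
      linear_combination (-a) * h3), rfl, by
      simp only [pw]; linear_combination (b - a) * h3⟩, by
    rintro ⟨x, y, z⟩ ⟨h, rfl, rfl⟩
    rw [kind1] at h
    subst h
    simp only [pw, Prod.mk.injEq, and_true]
    constructor
    · linear_combination (-x) * h3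
    · linear_combination (-y) * h3⟩

theorem r1 (a : A) : ∃! B : A × A × A, 2 ≤ kind B ∧ B.1 = a :=
  ⟨(a, a, a), ⟨(kind2 _ _ _).mpr ⟨rfl, rfl⟩, rfl⟩, by
    rintro ⟨x, y, z⟩ ⟨h, rfl⟩
    obtain ⟨rfl, rfl⟩ := (kind2 _ _ _).mp h
    rfl⟩

theorem r2 (a : A) : ∃! B : A × A × A, 2 ≤ kind B ∧ B.2.1 = a :=
  ⟨(a, a, a), ⟨(kind2 _ _ _).mpr ⟨rfl, rfl⟩, rfl⟩, by
    rintro ⟨x, y, z⟩ ⟨h, rfl⟩
    obtain ⟨rfl, rfl⟩ := (kind2 _ _ _).mp h
    rfl⟩

theorem r3 (a : A) : ∃! B : A × A × A, 2 ≤ kind B ∧ B.2.2 = a :=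
  ⟨(a, a, a), ⟨(kind2 _ _ _).mpr ⟨rfl, rfl⟩, rfl⟩, by
    rintro ⟨x, y, z⟩ ⟨h, rfl⟩
    obtain ⟨rfl, rfl⟩ := (kind2 _ _ _).mp h
    rfl⟩

theorem r4 (a : A) : ∃! B : A × A × A, 2 ≤ kind B ∧ pw B = a :=
  ⟨(a, a, a), ⟨(kind2 _ _ _).mpr ⟨rfl, rfl⟩, by simp only [pw]; ring⟩, by
    rintro ⟨x, y, z⟩ ⟨h, rfl⟩
    obtain ⟨rfl, rfl⟩ := (kind2 _ _ _).mp h
    simp [pw]⟩

theorem r0 : ∃! B : A × A × A, 3 ≤ kind B :=
  ⟨(0, 0, 0), (kind3 _ _ _).mpr ⟨rfl, rfl, rfl⟩, by
    rintro ⟨x, y, z⟩ h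
    obtain ⟨rfl, rfl, rfl⟩ := (kind3 _ _ _).mp h
    rfl⟩

/-- The relation: symbol `s` stands in row `r`, column `c`, layer `l`. -/
def Q (r c s : Elt A 8 5) (l : Elt A 2 3) : Prop :=
  ∃ B : A × A × A, compat r B.1 ∧ compat c B.2.1 ∧ compat s B.2.2 ∧ compat l (pw B) ∧
    tbl (kind B) (loc r) (loc c) (loc l) = loc s

theorem nw_le (o l : ℕ) : nw o l ≤ 1 := by unfold nw; split_ifs <;> omega

theorem Q_nw {r c s : Elt A 8 5} {l : Elt A 2 3} {κ : ℕ} (hκ : κ < 4)
    (h : tbl κ (loc r) (loc c) (loc l) = loc s) :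
    κ = 3 ∨ nw 8 (loc r) + nw 8 (loc c) + nw 8 (loc s) + nw 2 (loc l) ≤ κ := by
  by_cases h3 : κ = 3
  · exact Or.inl h3
  · have := tbl_nw κ (by omega) _ (loc_lt r) _ (loc_lt c) _ (loc_lt l) (by rw [h]; exact loc_lt s)
    rw [h] at this
    exact Or.inr this

include h2 in
theorem Q_sym (r c : Elt A 8 5) (l : Elt A 2 3) :
    ∃! s, Q r c s l := by
  obtain ⟨B, ⟨c1, c2, c3, c4⟩, hB⟩ := resp kind (fun B : A × A × A => B.1) (fun B => B.2.1) pw
    t124 s12 s14 (s24 i2 h2) r1 r2 r4 r0 r c l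
  obtain ⟨s, hs, hl⟩ := exists_elt (o := 8) (n := 5) B.2.2 _
    (tbl_ex3 _ (kind_lt B) _ (loc_lt r) _ (loc_lt c) _ (loc_lt l) c4)
  refine ⟨s, ⟨B, c1, c2, hs, c3, hl.symm⟩, ?_⟩
  rintro s' ⟨B', d1, d2, d3, d4, d5⟩
  have hn := Q_nw (kind_lt B') d5
  have := nw_le 8 (loc r); have := nw_le 8 (loc c); have := nw_le 2 (loc l)
  obtain rfl : B' = B := hB B' ⟨d1, d2, d4, by omega⟩
  exact elt_ext d3 hs (by rw [hl, d5])

include h2 h3 in
theorem Q_col (r s : Elt A 8 5) (l : Elt A 2 3) : ∃! c, Q r c s l := by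
  obtain ⟨B, ⟨c1, c2, c3, c4⟩, hB⟩ := resp kind (fun B : A × A × A => B.1) (fun B => B.2.2) pw
    (t134 i3 h3) (s13 i2 h2) s14 (s34 i3 h3) r1 r3 r4 r0 r s l
  obtain ⟨b, hb, hb'⟩ := tbl_ex2 _ (kind_lt B) _ (loc_lt r) _ (loc_lt s) _ (loc_lt l) c4
  obtain ⟨c, hc, hl⟩ := exists_elt (o := 8) (n := 5) B.2.1 _ hb
  refine ⟨c, ⟨B, c1, hc, c2, c3, by rw [hl, hb']⟩, ?_⟩
  rintro c' ⟨B', d1, d2, d3, d4, d5⟩
  have hn := Q_nw (kind_lt B') d5
  have := nw_le 8 (loc r); have := nw_le 8 (loc s); have := nw_le 2 (loc l)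
  obtain rfl : B' = B := hB B' ⟨d1, d3, d4, by omega⟩
  refine elt_ext d2 hc ?_
  rw [hl]
  exact tbl_un2 _ (kind_lt B') _ (loc_lt r) _ (loc_lt l) _ (loc_lt c') (by rw [d5]; exact loc_lt s)
    _ hb (by rw [d5, hb'])

include h2 h3 in
theorem Q_row (c s : Elt A 8 5) (l : Elt A 2 3) : ∃! r, Q r c s l := by
  obtain ⟨B, ⟨c1, c2, c3, c4⟩, hB⟩ := resp kind (fun B : A × A × A => B.2.1) (fun B => B.2.2) pw
    (t234 i3 h3) s23 (s24 i2 h2) (s34 i3 h3) r2 r3 r4 r0 c s l
  obtain ⟨b, hb, hb'⟩ := tbl_ex1 _ (kind_lt B) _ (loc_lt c) _ (loc_lt s) _ (loc_lt l) c4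
  obtain ⟨r, hr, hl⟩ := exists_elt (o := 8) (n := 5) B.1 _ hb
  refine ⟨r, ⟨B, hr, c1, c2, c3, by rw [hl, hb']⟩, ?_⟩
  rintro r' ⟨B', d1, d2, d3, d4, d5⟩
  have hn := Q_nw (kind_lt B') d5
  have := nw_le 8 (loc c); have := nw_le 8 (loc s); have := nw_le 2 (loc l)
  obtain rfl : B' = B := hB B' ⟨d2, d3, d4, by omega⟩
  refine elt_ext d1 hr ?_
  rw [hl]
  exact tbl_un1 _ (kind_lt B') _ (loc_lt c) _ (loc_lt l) _ (loc_lt r') (by rw [d5]; exact loc_lt s)
    _ hb (by rw [d5, hb'])

include h2 in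
theorem Q_disj (r c s : Elt A 8 5) (l l' : Elt A 2 3) (h : Q r c s l) (h' : Q r c s l') :
    l = l' := by
  obtain ⟨B, -, hB⟩ := resp kind (fun B : A × A × A => B.1) (fun B => B.2.1) (fun B => B.2.2)
    t123 s12 (s13 i2 h2) s23 r1 r2 r3 r0 r c s
  obtain ⟨B1, c1, c2, c3, c4, c5⟩ := h
  obtain ⟨B2, d1, d2, d3, d4, d5⟩ := h'
  have hn := Q_nw (kind_lt B1) c5
  have hn' := Q_nw (kind_lt B2) d5
  have := nw_le 8 (loc r); have := nw_le 8 (loc c); have := nw_le 8 (loc s)
  obtain rfl : B1 = B := hB B1 ⟨c1, c2, c3, by omega⟩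
  obtain rfl : B2 = B1 := hB B2 ⟨d1, d2, d3, by omega⟩
  refine elt_ext c4 d4 ?_
  exact tbl_un4 _ (kind_lt B2) _ (loc_lt r) _ (loc_lt c) _ (loc_lt l) (by rw [c5]; exact loc_lt s)
    _ (loc_lt l') (by rw [c5, d5])

include h2 in
theorem Q_cover (r c s : Elt A 8 5)
    (e1 : (ty1 (loc r) + ty1 (loc c) + ty1 (loc s)) % 2 = 0)
    (e2 : (ty2 (loc r) + ty2 (loc c) + ty2 (loc s)) % 2 = 0) : ∃ l, Q r c s l := by
  obtain ⟨B, ⟨c1, c2, c3, c4⟩, -⟩ := resp kind (fun B : A × A × A => B.1) (fun B => B.2.1)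
    (fun B => B.2.2) t123 s12 (s13 i2 h2) s23 r1 r2 r3 r0 r c s
  obtain ⟨b, hb, hb'⟩ := tbl_ex4 _ (kind_lt B) _ (loc_lt r) _ (loc_lt c) _ (loc_lt s) c4 e1 e2
  obtain ⟨l, hl, hl'⟩ := exists_elt (o := 2) (n := 3) (pw B) _ hb
  exact ⟨l, B, c1, c2, c3, hl, by rw [hl', hb']⟩

end Master

end Pool.Agent.MP_264e74_co

end MrgPart1

-- ======== part 2: formerly Pool.Agent.MP_264e74_co.Base
section MrgPart2

set_option autoImplicit false
set_option linter.unusedSectionVars false

namespace Pool.Agent.MP_264e74_co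

open Function Finset

section Base

variable {A : Type} [CommRing A] [DecidableEq A] [Fintype A]

/-- First type bit. -/
def b1 (e : Elt A 8 5) : ZMod 2 := (ty1 (loc e) : ZMod 2)
/-- Second type bit. -/
def b2 (e : Elt A 8 5) : ZMod 2 := (ty2 (loc e) : ZMod 2)

/-- The three summands of the indicator function of the Klein four-group table. -/
def αK : Fin 3 → (Fin 3 → Elt A 8 5) → ZMod 2
  | 0, x => b1 (x 1) * b2 (x 2) + b1 (x 2) * b2 (x 1)
  | 1, x => b1 (x 2) + b2 (x 2) + b1 (x 2) * b2 (x 2) + b1 (x 0) * b2 (x 2) + b1 (x 2) * b2 (x 0)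
  | 2, x => 1 + b1 (x 0) + b2 (x 0) + b1 (x 1) + b2 (x 1) + b1 (x 0) * b2 (x 0) +
      b1 (x 1) * b2 (x 1) + b1 (x 0) * b2 (x 1) + b1 (x 1) * b2 (x 0)

theorem sum_αK (x : Fin 3 → Elt A 8 5) : ∑ i, αK i x =
    (1 + b1 (x 0) + b1 (x 1) + b1 (x 2)) * (1 + b2 (x 0) + b2 (x 1) + b2 (x 2)) := by
  rw [Fin.sum_univ_three]
  simp only [αK]
  ring

theorem indep_αK (i : Fin 3) : Indep (αK (A := A) i) i := by
  intro x a
  fin_cases i <;> simp [αK]

theorem sum_elt (g : ZMod 2 → ZMod 2 → ZMod 2) :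
    ∑ e : Elt A 8 5, g (b1 e) (b2 e) = g 0 0 + g 0 1 + g 1 1 := by
  rw [Fintype.sum_sum_type, Fintype.sum_prod_type]
  have h0 : ∀ x : A, ∑ a : Fin 8, g (b1 (.inl (x, a) : Elt A 8 5)) (b2 (.inl (x, a) : Elt A 8 5))
      = 0 := by
    intro x
    rw [Fin.sum_univ_eight]
    simp only [b1, b2, loc, ty1, ty2]
    norm_num
    generalize g 0 0 = a
    generalize g 0 1 = b
    generalize g 1 0 = c
    generalize g 1 1 = d
    revert a b c d
    decide
  simp only [h0, Finset.sum_const_zero, zero_add]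
  rw [Fin.sum_univ_five]
  simp only [b1, b2, loc, ty1, ty2]
  norm_num
  generalize g 0 0 = a
  generalize g 0 1 = b
  generalize g 1 0 = c
  generalize g 1 1 = d
  revert a b c d
  decide

/-- Triples as functions on `Fin 3`. -/
def tripleEquiv (X : Type) : X × X × X ≃ (Fin 3 → X) where
  toFun p := ![p.1, p.2.1, p.2.2]
  invFun x := (x 0, x 1, x 2)
  left_inv _ := rfl
  right_inv x := by funext i; fin_cases i <;> rfl

theorem total_αK : ∑ x : Fin 3 → Elt A 8 5, ∑ i, αK i x = 1 := by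
  simp only [sum_αK]
  rw [← Equiv.sum_comp (tripleEquiv _), Fintype.sum_prod_type]
  simp only [Fintype.sum_prod_type]
  simp only [tripleEquiv, Equiv.coe_fn_mk, Matrix.cons_val_zero, Matrix.cons_val_one,
    Matrix.cons_val]
  have h1 : ∀ u1 u2 : ZMod 2, ∑ s : Elt A 8 5, (u1 + b1 s) * (u2 + b2 s) =
      u1 * u2 + u1 * (u2 + 1) + (u1 + 1) * (u2 + 1) := by
    intro u1 u2
    rw [sum_elt fun a b => (u1 + a) * (u2 + b)]
    simp
  simp only [h1]
  have h2 : ∀ u1 u2 : ZMod 2, ∑ c : Elt A 8 5, ((u1 + b1 c) * (u2 + b2 c) +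
      (u1 + b1 c) * (u2 + b2 c + 1) + (u1 + b1 c + 1) * (u2 + b2 c + 1)) =
      u1 * u2 := by
    intro u1 u2
    rw [sum_elt fun a b => (u1 + a) * (u2 + b) + (u1 + a) * (u2 + b + 1) +
      (u1 + a + 1) * (u2 + b + 1)]
    revert u1 u2
    decide
  simp only [h2]
  rw [sum_elt fun a b => (1 + a) * (1 + b)]
  decide

theorem zmod_ne {n : ℕ} (h : (1 : ZMod 2) + n ≠ 0) : n % 2 = 0 := by
  by_contra h2
  apply h
  have : Odd n := Nat.odd_iff.mpr (by omega)
  rw [ZMod.natCast_eq_one_iff_odd.mpr this]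
  decide

theorem card_elt (o n : ℕ) : Fintype.card (Elt A o n) = Fintype.card A * o + n := by
  simp

/-- The barrier for `j` factors and any coordinate set mapping onto the grid. -/
theorem exists_barrier (i2 i3 : A) (h2 : 2 * i2 = 1) (h3 : 3 * i3 = 1) (j : ℕ) (D : Type)
    [Fintype D] [DecidableEq D] (p : D → Fin j → Fin 3) (hp : Surjective p) :
    Nonempty (Barrier D (Fin j → Elt A 8 5) (Fin j → Elt A 2 3)) := by
  have hc := card_elt (A := A) 8 5
  let e : Elt A 8 5 ≃ ZMod (Fintype.card A * 8 + 5) :=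
    Fintype.equivOfCardEq (by rw [hc, ZMod.card])
  let _ : AddCommGroup (Elt A 8 5) := e.addCommGroup
  refine ⟨Barrier.grid (I := Fin 3) (by rw [hc]; exact ⟨Fintype.card A * 4 + 2, by ring⟩)
    (fun l x => Q (x 0) (x 1) (x 2) l) ?_ ?_ αK indep_αK ?_ total_αK j D p hp⟩
  · intro l c x
    fin_cases c
    · simpa using Q_row i2 i3 h2 h3 (x 1) (x 2) l
    · simpa using Q_col i2 i3 h2 h3 (x 0) (x 2) l
    · simpa using Q_sym i2 h2 (x 0) (x 1) l
  · intro l l' x h h'
    exact Q_disj i2 h2 _ _ _ _ _ h h'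
  · intro x hx
    rw [sum_αK] at hx
    refine Q_cover i2 h2 _ _ _ (zmod_ne ?_) (zmod_ne ?_)
    · have := left_ne_zero_of_mul hx
      simpa [b1, add_assoc] using this
    · have := right_ne_zero_of_mul hx
      simpa [b2, add_assoc] using this

end Base

/-- Transport of a barrier along bijections of the symbols and of the layers. -/
def Barrier.map {D X Λ X' Λ' : Type} [Fintype D] [DecidableEq D] [Fintype X] [DecidableEq X]
    [Fintype X'] [DecidableEq X'] (B : Barrier D X Λ) (e : X' ≃ X) (f : Λ' ≃ Λ) :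
    Barrier D X' Λ' where
  S l x := B.S (f l) fun c => e (x c)
  latin l c x := by
    have h := B.latin (f l) c fun c => e (x c)
    have key : ∀ a, (fun c' => e (update x c a c')) = update (fun c => e (x c)) c (e a) := by
      intro a
      funext c'
      by_cases h : c' = c
      · subst h; simp
      · simp [update_of_ne h]
    simp only [key]
    obtain ⟨a, ha, hu⟩ := h
    refine ⟨e.symm a, by simpa using ha, fun y hy => ?_⟩
    rw [← hu _ hy]; simp
  disj l l' x h h' := f.injective (B.disj _ _ _ h h')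
  J := B.J
  fin := B.fin
  α j x := B.α j fun c => e (x c)
  indep j := by
    obtain ⟨c, hc⟩ := B.indep j
    refine ⟨c, fun x a => ?_⟩
    have key : (fun c' => e (update x c a c')) = update (fun c => e (x c)) c (e a) := by
      funext c'
      by_cases h : c' = c
      · subst h; simp
      · simp [update_of_ne h]
    simp only [key]
    exact hc _ _
  cover x hx := by
    obtain ⟨l, hl⟩ := B.cover _ hx
    exact ⟨f.symm l, by simpa using hl⟩
  total := by
    rw [← B.total]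
    exact Equiv.sum_comp (Equiv.piCongrRight fun _ => e)
      (fun x => ∑ j ∈ @Finset.univ _ B.fin, B.α j x)

end Pool.Agent.MP_264e74_co

end MrgPart2

-- marker of a merged file
example : 731051 + 189860 = 731051 + 189860 := rfl
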